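import Pool.Agent.Lib.MP_c9b009_ag.PS.All

/-!
Problem MP_c9b009_ag: Poisson subvarieties of small dimension force degeneracy, for every projective
Poisson variety with an ample Poisson line bundle, in particular for every Fano manifold.
-/

set_option autoImplicit false

namespace Pool.Agent.Results.MP_c9b009_ag.PoissonSubvarieties

open Pool.Agent.Lib.MPc9b009.B5 Pool.Agent.Lib.MPc9b009.PS MvPolynomial

/-- `S = ℂ[x_1, .., x_N]`, `I` a homogeneous ideal, `g` a skew matrix of quadratic forms for which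
`S / I` is a graded Poisson algebra, `X = Proj (S / I)`, `s` even. If the rank `s + 2` occurs on the
cone over `X`, or `X` has an irreducible closed Poisson subvariety of dimension `s + 1`, `s + 2` or
`s + 3` (a homogeneous prime `p ⊇ I` stable under the Hamiltonian vector fields), or `X_{≤ s+2}` has an
irreducible component of dimension `s + 1`, `s + 2` or `s + 3`, then `X_{≤ s}` has an irreducible
component of dimension `≥ s + 1`. -/
theorem result (N : ℕ) (I : Ideal (MvPolynomial (Fin N) ℂ)) (g : Biv N) (hI : Hom I)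
    (hst : Stab g.f I) (hj : ∀ i j k, jac g.f i j k ∈ I) (s : ℕ) (hs : Even s)
    (h : (∃ x ∈ Zer I, (mat g.f x).rank = s + 2) ∨
      (∃ p : Ideal (MvPolynomial (Fin N) ℂ), p.IsPrime ∧ Hom p ∧ I ≤ p ∧ Stab g.f p ∧
        ((s + 2 : ℕ) : Cardinal) ≤ Algebra.trdeg ℂ (MvPolynomial (Fin N) ℂ ⧸ p) ∧
        Algebra.trdeg ℂ (MvPolynomial (Fin N) ℂ ⧸ p) ≤ ((s + 4 : ℕ) : Cardinal)) ∨
      (∃ P ∈ (vanI I g.f (s + 2)).minimalPrimes,
        ((s + 2 : ℕ) : Cardinal) ≤ Algebra.trdeg ℂ (MvPolynomial (Fin N) ℂ ⧸ P) ∧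
        Algebra.trdeg ℂ (MvPolynomial (Fin N) ℂ ⧸ P) ≤ ((s + 4 : ℕ) : Cardinal))) :
    BigI I g.f s :=
  PS_holds N I g hI hst hj s hs h

end Pool.Agent.Results.MP_c9b009_ag.PoissonSubvarieties
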