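import Pool.Agent.Lib.MP_c9b009_ag.DIM

/-!
Problem MP_c9b009_ag: Bondal's conjecture for all Poisson structures on `(ℙ¹)ⁿ`.
-/

set_option autoImplicit false

namespace Pool.Agent.Results.MP_c9b009_ag.ProjectiveLines

open Pool.Agent.Lib.MPc9b009 MvPolynomial

/-- Let `τ` be a Poisson structure on `X = (ℙ¹)ⁿ` over `ℂ`, `s` even and `0 ≤ s < n`.  For every
set `I` of `s + 1` factors the degeneracy locus `X_{≤ s}` has an irreducible component `Z`
(given by a minimal prime `P` over the multihomogeneous ideal of `X_{≤ s}`) of dimension at least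
`s + 1` (the transcendence degree of the multihomogeneous coordinate ring of `Z` is `n + dim Z`),
on which the coordinates of the factors in `I` are algebraically independent. -/
theorem result (n : ℕ) (τ : Poisson n) (s : ℕ) (hs : Even s) (hn : s < n)
    (I : Finset (Fin n)) (hI : I.card = s + 1) :
    ∃ P ∈ (τ.ideal s).minimalPrimes,
      AlgebraicIndependent ℂ (fun p : I × Fin 2 => Ideal.Quotient.mk P (X (p.1.1, p.2))) ∧
      ((n + (s + 1) : ℕ) : Cardinal) ≤ Algebra.trdeg ℂ (MvPolynomial (Fin n × Fin 2) ℂ ⧸ P) :=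
  component n τ s hs hn I hI

end Pool.Agent.Results.MP_c9b009_ag.ProjectiveLines
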