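import Pool.Agent.Lib.MP_c9b009_ag.OD.All

/-!
Problem MP_c9b009_ag: Bondal's conjecture for all Poisson structures on `ℙⁿ`, `n` odd, and the
three top degeneracy loci `s = n - 1, n - 3, n - 5`.
-/

set_option autoImplicit false

namespace Pool.Agent.Results.MP_c9b009_ag.ProjectiveOdd

open Pool.Agent.Lib.MPc9b009.B5

/-- Let `n` be odd, let `τ` be any Poisson structure on `ℙⁿ` over `ℂ` and let `s` be even,
`n - 5 ≤ s < n` (for `n ≤ 5`: all the cases of the question).  Then `Big τ.f s`: the degeneracy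
locus `X_{≤ s}` has an irreducible component of dimension at least `s + 1`. -/
theorem result (n : ℕ) (hn : Odd n) (τ : Pois (n + 1)) (s : ℕ) (hs : Even s)
    (h5 : n ≤ s + 5) (hsn : s < n) : Big τ.f s :=
  Pool.Agent.Lib.MPc9b009.OD.holds (n + 1) s τ (by
    obtain ⟨k, hk⟩ := hn
    exact ⟨k + 1, by omega⟩) hs (by omega) (by omega)

end Pool.Agent.Results.MP_c9b009_ag.ProjectiveOdd
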