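import Pool.Agent.Lib.MP_c9b009_ag.LF.Main

/-!
Problem MP_c9b009_ag: all degeneracy loci of the generically symplectic Poisson structures with a reduced
degeneracy divisor on projective manifolds with an ample Poisson line bundle (for instance Fano manifolds), and
of all limits of such structures.
-/

set_option autoImplicit false

namespace Pool.Agent.Results.MP_c9b009_ag.ReducedDivisor

open Pool.Agent.Lib.MPc9b009.B5 Pool.Agent.Lib.MPc9b009.PS Pool.Agent.Lib.MPc9b009.LF MvPolynomial

/-- Let `s` be even. Let `(I₀, g₀)` be a limit of pairs `(I t, G t)` for which `X_t = Proj (S / I t)` is a projective variety of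
dimension `> s`, smooth at all the points of rank `> s`, and `G t` is a graded Poisson structure on `S / I t` such that the
induced Poisson structure of `X_t` (or the Poisson structure of the affine cone over `X_t`) is generically symplectic with
a reduced degeneracy divisor (`RedPoisson`). Then the locus `X_{≤ s}` of `X = Proj (S / I₀)` has an irreducible component of
dimension `≥ s + 1`. (With constant sequences: this holds for every such `X_t` itself.) -/
theorem result (N s : ℕ) (I : ℕ → Ideal (MvPolynomial (Fin N) ℂ))
    (I₀ : Ideal (MvPolynomial (Fin N) ℂ)) (G : ℕ → Biv N) (g₀ : Biv N) (hs : Even s)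
    (hG : ∀ t, ∃ n, s < n ∧ RedPoisson n s (I t) (G t)) (hI₀ : Hom I₀) (hI : LimId I I₀)
    (hlim : ∀ i j m, Filter.Tendsto (fun t => coeff m ((G t).f i j)) Filter.atTop
      (nhds (coeff m (g₀.f i j)))) : BigI I₀ g₀.f s :=
  main N s I I₀ G g₀ hs hG hI₀ hI hlim

end Pool.Agent.Results.MP_c9b009_ag.ReducedDivisor
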